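import Pool.Agent.BEG.Stmts

/-!
# Squad BEG (MP_be01ff_an), row KSY: the subspace of the invariant functions
-/

namespace Pool.Agent.BEG.H35

open Set Filter Topology MeasureTheory
open scoped InnerProductSpace ENNReal
open Pool.Agent.BE01 Pool.Agent.BEL Pool.Agent.BEF Pool.Agent.BEN Pool.Agent.BEH Pool.Agent.BEG

theorem ksy (mgp : MgpStmt) (thg : ThgStmt) (weg : WegStmt) (unq : UnqStmt) : KsyStmt := by
  intro d Ω G hd hΩ hG
  have hmp : ∀ g ∈ G, MeasurePreserving (mv g) (mu Ω) (mu Ω) := fun g hg =>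
    (mgp d Ω g hΩ.1 (hG g hg)).1
  have hT : ∀ g (hg : g ∈ G) (u : Lp ℝ 2 (mu Ω)),
      (Lp.compMeasurePreservingₗᵢ ℝ (mv g) (hmp g hg) u : En d → ℝ) =ᵐ[mu Ω]
        fun x => u (mv g x) := fun g hg u =>
    Lp.coeFn_compMeasurePreserving u (hmp g hg)
  have hinv : ∀ u : Lp ℝ 2 (mu Ω), Inv Ω G u ↔
      ∀ g (hg : g ∈ G), Lp.compMeasurePreservingₗᵢ ℝ (mv g) (hmp g hg) u = u := by
    intro u
    constructor
    · intro h g hg
      exact Lp.ext ((hT g hg u).trans (h g hg))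
    · intro h g hg
      have h1 := hT g hg u
      rw [h g hg] at h1
      exact h1.symm
  let K : Submodule ℝ (Lp ℝ 2 (mu Ω)) :=
    { carrier := {u | ∀ g (hg : g ∈ G), Lp.compMeasurePreservingₗᵢ ℝ (mv g) (hmp g hg) u = u}
      add_mem' := fun {u v} hu hv g hg => by
        rw [map_add, hu g hg, hv g hg]
      zero_mem' := fun g hg => map_zero _
      smul_mem' := fun c u hu g hg => by
        rw [map_smul, hu g hg] }
  have hK : ∀ u, u ∈ K ↔ Inv Ω G u := fun u => (hinv u).symm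
  refine ⟨K, ⟨?_, ?_, ?_, ?_⟩, hK⟩
  · have h1 : (K : Set (Lp ℝ 2 (mu Ω))) = ⋂ g, ⋂ hg : g ∈ G,
        {u | Lp.compMeasurePreservingₗᵢ ℝ (mv g) (hmp g hg) u = u} := by
      ext u
      simp only [mem_iInter]
      exact Iff.rfl
    rw [h1]
    exact isClosed_iInter fun g => isClosed_iInter fun hg =>
      isClosed_eq (Lp.compMeasurePreservingₗᵢ ℝ (mv g) (hmp g hg)).continuous continuous_id
  · intro f hf
    rw [hK]
    intro g hg
    exact ((hmp g hg).quasiMeasurePreserving.ae_eq_comp hf).trans hf.symm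
  · intro f f' h hf hf' hh
    rw [hK] at hf hf' ⊢
    intro g hg
    have h1 := (hmp g hg).quasiMeasurePreserving.ae_eq_comp hh
    filter_upwards [h1, hf g hg, hf' g hg, hh] with x e1 e2 e3 e4
    have e1' : h (mv g x) = f (mv g x) * f' (mv g x) := e1
    rw [e1', e2, e3, e4]
  · intro h hh u F huF hF
    rw [hK] at hh ⊢
    rw [hinv]
    intro g hg
    let L : En d →L[ℝ] En d := (g.1.symm.toContinuousLinearEquiv : En d →L[ℝ] En d)
    let F1 : Lp (En d) 2 (mu Ω) := Lp.compMeasurePreserving (mv g) (hmp g hg) F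
    let F' : Lp (En d) 2 (mu Ω) := L.compLp F1
    have hF' : F' =ᵐ[mu Ω] fun x => g.1.symm (F (mv g x)) := by
      filter_upwards [L.coeFn_compLp F1, Lp.coeFn_compMeasurePreserving F (hmp g hg)] with x e1 e2
      have e2' : F1 x = F (mv g x) := e2
      rw [e1, e2']
      rfl
    have h1 := thg d Ω g u (Lp.compMeasurePreservingₗᵢ ℝ (mv g) (hmp g hg) u) F F' hΩ.1
      (hG g hg) huF (hT g hg u) hF'
    have h2 : Wk Ω F' h := weg d Ω g h h F F' hΩ.1 (hG g hg) hF (hh g hg).symm hF'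
    exact unq d Ω _ u h F' F hd hΩ h1 huF h2 hF

end Pool.Agent.BEG.H35
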